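import Pool.Agent.H238.PH.Spec

set_option autoImplicit false

namespace Pool.Agent.H643.PHC1

open MeasureTheory Set Filter Topology
open scoped ContDiff RealInnerProductSpace ComplexConjugate
open Pool.Agent.H238.PH

lemma toE (f : RE 2 → ℝ) : ∫ x, f x = ∫ p : ℝ × ℝ, f !₂[p.1, p.2] := by
  have hm : MeasurePreserving (fun p : ℝ × ℝ => (!₂[p.1, p.2] : RE 2)) := by
    have h1 := (PiLp.volume_preserving_toLp (Fin 2))
    have h2 := (volume_preserving_finTwoArrow ℝ).symm
    have h3 := h1.comp h2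
    have h4 : (fun p : ℝ × ℝ => (!₂[p.1, p.2] : RE 2))
        = WithLp.toLp 2 ∘ ⇑(MeasurableEquiv.finTwoArrow (α := ℝ)).symm := by
      funext p
      ext i
      fin_cases i <;> rfl
    rw [h4]
    exact h3
  have he : MeasurableEmbedding (fun p : ℝ × ℝ => (!₂[p.1, p.2] : RE 2)) := by
    have h1 : MeasurableEmbedding ((MeasurableEquiv.finTwoArrow (α := ℝ)).symm.trans
      (MeasurableEquiv.toLp 2 (Fin 2 → ℝ))) := MeasurableEquiv.measurableEmbedding _
    have h4 : (fun p : ℝ × ℝ => (!₂[p.1, p.2] : RE 2))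
        = ⇑((MeasurableEquiv.finTwoArrow (α := ℝ)).symm.trans
          (MeasurableEquiv.toLp 2 (Fin 2 → ℝ))) := by
      funext p
      ext i
      fin_cases i <;> rfl
    rw [h4]
    exact h1
  rw [← hm.integral_comp he f]

lemma norm_ec (t : ℝ) : ‖ec t‖ = 1 := by
  rw [EuclideanSpace.norm_eq]
  simp [ec]

lemma cont_ec : Continuous ec := by
  unfold ec
  refine (PiLp.continuous_toLp 2 _).comp ?_
  refine continuous_pi ?_
  intro i
  fin_cases i
  · exact Real.continuous_cos
  · exact Real.continuous_sin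

theorem t_C1 : S_C1 := by
  intro f hf hcf
  have h2 := integral_comp_polarCoord_symm (fun p : ℝ × ℝ => f !₂[p.1, p.2])
  rw [toE f, ← h2]
  have h3 : polarCoord.target = Ioi (0:ℝ) ×ˢ Ioo (-Real.pi) Real.pi := rfl
  have h4 : ∀ p : ℝ × ℝ, p.1 • f !₂[(polarCoord.symm p).1, (polarCoord.symm p).2]
      = p.1 * f (p.1 • ec p.2) := by
    intro p
    rw [smul_eq_mul]
    congr 2
    ext i
    fin_cases i <;> simp [ec, polarCoord_symm_apply]
  simp_rw [h4]
  rw [h3, Measure.volume_eq_prod, setIntegral_prod]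
  · refine setIntegral_congr_fun measurableSet_Ioi ?_
    intro r hr
    simp only
    rw [intervalIntegral.integral_of_le (by linarith [Real.pi_pos]), ← integral_Ioc_eq_integral_Ioo]
  · obtain ⟨R, hR⟩ := hcf.isBounded.subset_closedBall (0 : RE 2)
    have hcont : Continuous (fun p : ℝ × ℝ => p.1 * f (p.1 • ec p.2)) :=
      continuous_fst.mul (hf.comp (continuous_fst.smul (cont_ec.comp continuous_snd)))
    have hK : IsCompact (Icc (0:ℝ) (max R 0) ×ˢ Icc (-Real.pi) Real.pi) :=
      isCompact_Icc.prod isCompact_Icc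
    have hI : IntegrableOn (fun p : ℝ × ℝ => p.1 * f (p.1 • ec p.2))
        (Icc (0:ℝ) (max R 0) ×ˢ Icc (-Real.pi) Real.pi) (volume.prod volume) :=
      hcont.continuousOn.integrableOn_compact hK
    refine IntegrableOn.of_forall_sdiff_eq_zero hI (measurableSet_Ioi.prod measurableSet_Ioo) ?_
    rintro ⟨r, t⟩ ⟨⟨hr, ht⟩, hn⟩
    simp only [mem_Ioi, mem_Ioo] at hr ht
    have hrR : max R 0 < r := by
      by_contra hc
      push Not at hc
      exact hn ⟨⟨hr.le, hc⟩, ⟨ht.1.le, ht.2.le⟩⟩
    have : f (r • ec t) = 0 := by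
      by_contra hne
      have hmem : r • ec t ∈ tsupport f := subset_tsupport f hne
      have := hR hmem
      rw [mem_closedBall_zero_iff, norm_smul, norm_ec, mul_one, Real.norm_of_nonneg hr.le] at this
      linarith [le_max_left R 0]
    simp [this]

end Pool.Agent.H643.PHC1
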