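import Pool.Agent.H238.PH.Spec

set_option autoImplicit false

namespace Pool.Agent.H643.PHC2

open MeasureTheory Set Filter Topology
open scoped ContDiff RealInnerProductSpace ComplexConjugate
open Pool.Agent.H238.PH

lemma norm_ec (t : ℝ) : ‖ec t‖ = 1 := by
  rw [EuclideanSpace.norm_eq]
  simp [ec]

/-- the complex number `x₁ + i x₂` -/
noncomputable def cx (x : RE 2) : ℂ := (x 0 : ℂ) + (x 1 : ℂ) * Complex.I

lemma contDiff_cx : ContDiff ℝ ∞ cx := by
  unfold cx
  have h0 : ContDiff ℝ ∞ (fun x : RE 2 => (x 0 : ℝ)) := by fun_prop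
  have h1 : ContDiff ℝ ∞ (fun x : RE 2 => (x 1 : ℝ)) := by fun_prop
  exact (Complex.ofRealCLM.contDiff.comp h0).add
    ((Complex.ofRealCLM.contDiff.comp h1).mul contDiff_const)

lemma cx_ec (r t : ℝ) (k : ℕ) : cx (r • ec t) ^ k
    = ((r ^ k : ℝ) : ℂ) * (((Real.cos (k * t) : ℝ) : ℂ) + ((Real.sin (k * t) : ℝ) : ℂ) * Complex.I) := by
  have h1 : cx (r • ec t) = (r : ℂ) * (Complex.cos t + Complex.sin t * Complex.I) := by
    simp [cx, ec]
    ring
  rw [h1, mul_pow, Complex.cos_add_sin_mul_I_pow]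
  push_cast
  ring

theorem t_C2 : S_C2 := by
  intro k
  let χ : ContDiffBump (0 : ℝ) := ⟨1, 4, by norm_num, by norm_num⟩
  have hχ : ContDiff ℝ ∞ (χ : ℝ → ℝ) := χ.contDiff
  have hχ1 : χ 1 = 1 := χ.one_of_mem_closedBall (by simp [χ])
  have hχ0 : ∀ s : ℝ, 4 ≤ s → χ s = 0 := by
    intro s hs
    refine χ.zero_of_le_dist ?_
    simp only [χ, dist_zero_right, Real.norm_eq_abs]
    exact le_trans hs (le_abs_self s)
  have hn : ContDiff ℝ ∞ (fun x : RE 2 => χ (‖x‖ ^ 2)) := hχ.comp (contDiff_norm_sq ℝ)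
  have hcs : ∀ f : RE 2 → ℝ, HasCompactSupport (fun x : RE 2 => χ (‖x‖ ^ 2) * f x) := by
    intro f
    refine HasCompactSupport.of_support_subset_isCompact (isCompact_closedBall (0 : RE 2) 2) ?_
    intro x hx
    rw [mem_closedBall_zero_iff]
    by_contra hc
    push Not at hc
    apply hx
    have : χ (‖x‖ ^ 2) = 0 := hχ0 _ (by nlinarith)
    simp [this]
  refine ⟨fun r => χ (r ^ 2) * r ^ k, fun x => χ (‖x‖ ^ 2) * (cx x ^ k).re,
    fun x => χ (‖x‖ ^ 2) * (cx x ^ k).im, ?_, ?_, ?_, ?_, ?_, ?_, ?_, ?_, ?_, ?_⟩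
  · exact (hχ.comp (contDiff_id.pow 2)).mul (contDiff_id.pow k)
  · refine HasCompactSupport.of_support_subset_isCompact (isCompact_Icc (a := (-2 : ℝ)) (b := 2)) ?_
    intro x hx
    by_contra hc
    apply hx
    have h4 : 4 ≤ x ^ 2 := by
      by_contra h5
      push Not at h5
      exact hc ⟨by nlinarith, by nlinarith⟩
    simp only
    rw [hχ0 _ h4, zero_mul]
  · intro r hr
    exact mul_nonneg χ.nonneg (pow_nonneg hr.le k)
  · simp [hχ1]
  · exact hn.mul (Complex.reCLM.contDiff.comp (contDiff_cx.pow k))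
  · exact hcs _
  · exact hn.mul (Complex.imCLM.contDiff.comp (contDiff_cx.pow k))
  · exact hcs _
  · intro r t
    simp only
    rw [cx_ec, norm_smul, norm_ec, mul_one, Real.norm_eq_abs, sq_abs, Complex.re_ofReal_mul]
    have : ((((Real.cos (k * t) : ℝ) : ℂ) + ((Real.sin (k * t) : ℝ) : ℂ) * Complex.I)).re
        = Real.cos (k * t) := by
      rw [Complex.add_re, Complex.ofReal_re, Complex.re_ofReal_mul]; simp
    rw [this]; ring
  · intro r t
    simp only
    rw [cx_ec, norm_smul, norm_ec, mul_one, Real.norm_eq_abs, sq_abs, Complex.im_ofReal_mul]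
    have : ((((Real.cos (k * t) : ℝ) : ℂ) + ((Real.sin (k * t) : ℝ) : ℂ) * Complex.I)).im
        = Real.sin (k * t) := by
      rw [Complex.add_im, Complex.ofReal_im, Complex.im_ofReal_mul]; simp
    rw [this]; ring

end Pool.Agent.H643.PHC2
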